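import Pool.Agent.H922R3.CL.DefsB

/-!
# Abelian extensions of hyperbolic maps: definitions
-/

set_option autoImplicit false

open Set Filter Topology Function

namespace Pool.Agent.H922R3.CLR

open Pool.Agent.H922R3.CL

/-- The lattice `ℤ^d × ℤ^l × 0` of `ℝ^d × ℝ^l × ℝ^m`; the quotient is `𝕋^d × 𝕋^l × ℝ^m`. -/
def ZR (d l m : ℕ) : AddSubgroup (V d l m) := (Zn d).prod ((Zn l).prod ⊥)

/-- `F` is a lift of a `C^r` diffeomorphism of `𝕋^d × 𝕋^l × ℝ^m` which is an extension of a map `h`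
of `𝕋^d`, Hölder conjugate to a hyperbolic automorphism, by the abelian group `𝕋^l × ℝ^m`:
`F (b, θ, y) = (h b, θ + ω b, y + φ b)`. -/
def IsAbExt {d l m : ℕ} (r : ℕ∞) (F : V d l m ≃ V d l m) : Prop :=
  IsDiffeoLift (ZR d l m) r F ∧ ∃ (h : (Fin d → ℝ) → (Fin d → ℝ)) (ω : (Fin d → ℝ) → (Fin l → ℝ))
    (φ : (Fin d → ℝ) → (Fin m → ℝ)), (∀ b θ y, F (b, θ, y) = (h b, θ + ω b, y + φ b)) ∧
    HolderHyp (Zn d) h

/-- `z` can be closed in the strong `C^r` topology of `𝕋^d × 𝕋^l × ℝ^m`: there is a compact set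
`‖y‖ ≤ R` such that for all `k ≤ r` and `ε > 0` some `C^r` diffeomorphism `G`, equal to `F` outside
this compact set and `C^k` `ε`-close to `F`, has `z` as a periodic point. -/
def StronglyClosable {d l m : ℕ} (r : ℕ∞) (F : V d l m ≃ V d l m) (z : V d l m) : Prop :=
  ∃ R : ℝ, ∀ k : ℕ, (k : ℕ∞) ≤ r → ∀ ε : ℝ, 0 < ε → ∃ G : V d l m ≃ V d l m,
    IsDiffeoLift (ZR d l m) r G ∧ (∀ x : V d l m, R ≤ ‖x.2.2‖ → G x = F x) ∧
    (∀ j ≤ k, ∀ x, ‖iteratedFDeriv ℝ j (fun x => G x - F x) x‖ < ε) ∧ IsPer (ZR d l m) G z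

/-- The point represented by `z` is nonwandering. -/
def ExtNonwand {d l m : ℕ} (F : V d l m ≃ V d l m) (z : V d l m) : Prop :=
  IsNonwand (ZR d l m) F z

end Pool.Agent.H922R3.CLR
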