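import Pool.Agent.H922R3.CLR.Tp

set_option autoImplicit false
set_option linter.unusedSectionVars false

open Set Filter Topology Function

namespace Pool.Agent.H922R3.CLR

open Pool.Agent.H922R3.CL

variable {d l m : ℕ}

/-- `x + χ(y) P`. -/
def TT (χ : (Fin m → ℝ) → ℝ) (P x : V d l m) : V d l m := x + χ x.2.2 • P

/-- The perturbed family. -/
def GG (χ : (Fin m → ℝ) → ℝ) (F : V d l m → V d l m) (P x : V d l m) : V d l m :=
  TT χ (P.1, 0, 0) (F (TT χ (0, P.2) (TT χ (-P.1, 0, 0) x)))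

theorem TT_zero (χ : (Fin m → ℝ) → ℝ) (x : V d l m) : TT χ 0 x = x := by
  rw [TT, smul_zero, add_zero]

theorem TT_latt (χ : (Fin m → ℝ) → ℝ) (P x : V d l m) {u : V d l m} (hu : u.2.2 = 0) :
    TT χ P (x + u) = TT χ P x + u := by
  have h1 : (x + u).2.2 = x.2.2 := by
    show x.2.2 + u.2.2 = x.2.2
    rw [hu, add_zero]
  rw [TT, TT, h1]
  abel

theorem TT_base (χ : (Fin m → ℝ) → ℝ) (v : Fin d → ℝ) (x : V d l m) :
    TT χ (-v, 0, 0) (TT χ (v, 0, 0) x) = x := by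
  obtain ⟨b, θ, y⟩ := x
  simp [TT]

theorem TT_base' (χ : (Fin m → ℝ) → ℝ) (v : Fin d → ℝ) (x : V d l m) :
    TT χ (v, 0, 0) (TT χ (-v, 0, 0) x) = x := by
  obtain ⟨b, θ, y⟩ := x
  simp [TT]

theorem TT_out {χ : (Fin m → ℝ) → ℝ} (P : V d l m) {x : V d l m} (h : χ x.2.2 = 0) :
    TT χ P x = x := by
  rw [TT, h, zero_smul, add_zero]

theorem TT_equiv {χ : (Fin m → ℝ) → ℝ} (hχ : ContDiff ℝ (⊤ : ℕ∞) χ) {C : ℝ}
    (hC : ∀ y, ‖fderiv ℝ χ y‖ ≤ C) {r : ℕ∞} (hr : 1 ≤ r) {P : V d l m} (hP : C * ‖P‖ ≤ 1 / 2) :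
    ∃ Θ : V d l m ≃ V d l m, (∀ x, Θ x = TT χ P x) ∧ ContDiff ℝ r Θ ∧ ContDiff ℝ r Θ.symm := by
  have h1 : ContDiff ℝ r (fun x : V d l m => χ x.2.2 • P) := by
    have h2 : ContDiff ℝ r (fun x : V d l m => χ x.2.2) :=
      (hχ.of_le (by exact_mod_cast le_top)).comp (contDiff_snd.comp contDiff_snd)
    exact h2.smul contDiff_const
  have hχd : Differentiable ℝ χ := hχ.differentiable (by simp)
  refine id_add_equiv hr h1 (fun x => ?_)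
  have h3 : HasFDerivAt (fun x : V d l m => χ x.2.2)
      ((fderiv ℝ χ x.2.2).comp ((ContinuousLinearMap.snd ℝ (Fin l → ℝ) (Fin m → ℝ)).comp
        (ContinuousLinearMap.snd ℝ (Fin d → ℝ) ((Fin l → ℝ) × (Fin m → ℝ))))) x :=
    (hχd x.2.2).hasFDerivAt.comp x
      ((ContinuousLinearMap.snd ℝ (Fin l → ℝ) (Fin m → ℝ)).comp
        (ContinuousLinearMap.snd ℝ (Fin d → ℝ) ((Fin l → ℝ) × (Fin m → ℝ)))).hasFDerivAt
  rw [(h3.smul_const P).fderiv]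
  apply ContinuousLinearMap.opNorm_le_bound _ (by norm_num)
  intro v
  show ‖(fderiv ℝ χ x.2.2) v.2.2 • P‖ ≤ 1 / 2 * ‖v‖
  rw [norm_smul]
  have h4 : ‖(fderiv ℝ χ x.2.2) v.2.2‖ ≤ C * ‖v‖ := by
    refine (ContinuousLinearMap.le_opNorm _ _).trans ?_
    have h5 : ‖v.2.2‖ ≤ ‖v‖ := (norm_snd_le v.2).trans (norm_snd_le v)
    exact mul_le_mul (hC _) h5 (norm_nonneg _) ((norm_nonneg _).trans (hC x.2.2))
  calc ‖(fderiv ℝ χ x.2.2) v.2.2‖ * ‖P‖ ≤ (C * ‖v‖) * ‖P‖ :=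
        mul_le_mul_of_nonneg_right h4 (norm_nonneg _)
    _ = (C * ‖P‖) * ‖v‖ := by ring
    _ ≤ 1 / 2 * ‖v‖ := mul_le_mul_of_nonneg_right hP (norm_nonneg _)

/-- `G` is a lift of a diffeomorphism. -/
theorem GG_equiv {χ : (Fin m → ℝ) → ℝ} (hχ : ContDiff ℝ (⊤ : ℕ∞) χ) {C : ℝ}
    (hC : ∀ y, ‖fderiv ℝ χ y‖ ≤ C) {r : ℕ∞} (hr : 1 ≤ r) {F : V d l m ≃ V d l m}
    (hF : IsDiffeoLift (ZR d l m) r F) {P : V d l m} (hP : C * ‖P‖ ≤ 1 / 2) :
    ∃ G : V d l m ≃ V d l m, (∀ x, G x = GG χ F P x) ∧ IsDiffeoLift (ZR d l m) r G := by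
  have hC0 : 0 ≤ C := (norm_nonneg _).trans (hC 0)
  have n1 : ‖((P.1, 0, 0) : V d l m)‖ ≤ ‖P‖ := by
    rw [Prod.norm_def]
    apply max_le (norm_fst_le P)
    show ‖(0 : (Fin l → ℝ) × (Fin m → ℝ))‖ ≤ _
    rw [norm_zero]
    exact norm_nonneg _
  have n2 : ‖((-P.1, 0, 0) : V d l m)‖ ≤ ‖P‖ := by
    rw [Prod.norm_def]
    apply max_le
    · show ‖-P.1‖ ≤ _
      rw [norm_neg]
      exact norm_fst_le P
    · show ‖(0 : (Fin l → ℝ) × (Fin m → ℝ))‖ ≤ _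
      rw [norm_zero]
      exact norm_nonneg _
  have n3 : ‖((0, P.2) : V d l m)‖ ≤ ‖P‖ := by
    rw [Prod.norm_def]
    apply max_le
    · show ‖(0 : Fin d → ℝ)‖ ≤ _
      rw [norm_zero]
      exact norm_nonneg _
    · exact norm_snd_le P
  obtain ⟨Θ₁, h1, h1s, h1s'⟩ := TT_equiv hχ hC hr (P := ((P.1, 0, 0) : V d l m))
    ((mul_le_mul_of_nonneg_left n1 hC0).trans hP)
  obtain ⟨Θ₂, h2, h2s, h2s'⟩ := TT_equiv hχ hC hr (P := ((-P.1, 0, 0) : V d l m))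
    ((mul_le_mul_of_nonneg_left n2 hC0).trans hP)
  obtain ⟨Θ₃, h3, h3s, h3s'⟩ := TT_equiv hχ hC hr (P := ((0, P.2) : V d l m))
    ((mul_le_mul_of_nonneg_left n3 hC0).trans hP)
  obtain ⟨A, hA⟩ := hF.equiv
  have hG : ∀ x, ((Θ₂.trans Θ₃).trans (F.trans Θ₁)) x = GG χ F P x := by
    intro x
    show Θ₁ (F (Θ₃ (Θ₂ x))) = _
    rw [h1, h2, h3]
    rfl
  refine ⟨(Θ₂.trans Θ₃).trans (F.trans Θ₁), hG, ⟨?_, ?_, A, fun z u => ?_⟩⟩
  · exact (h1s.comp hF.smooth).comp (h3s.comp h2s)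
  · exact (h2s'.comp h3s').comp (hF.smooth_symm.comp h1s')
  · have hz : ∀ u : ZR d l m, (u : V d l m).2.2 = 0 := fun u => by
      have := u.2.2.2
      simpa using this
    rw [hG, hG, GG, GG, TT_latt _ _ _ (hz u), TT_latt _ _ _ (hz u), hA, TT_latt _ _ _ (hz _)]

theorem GG_zero (χ : (Fin m → ℝ) → ℝ) (F : V d l m → V d l m) (x : V d l m) :
    GG χ F 0 x = F x := by
  have e1 : (((0 : V d l m).1, 0, 0) : V d l m) = 0 := rfl
  have e2 : ((-(0 : V d l m).1, 0, 0) : V d l m) = 0 := by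
    show ((-(0 : Fin d → ℝ), 0, 0) : V d l m) = 0
    rw [neg_zero]
    rfl
  have e3 : ((0, (0 : V d l m).2) : V d l m) = 0 := rfl
  rw [GG, e1, e2, e3, TT_zero, TT_zero, TT_zero]

theorem GG_smooth {χ : (Fin m → ℝ) → ℝ} (hχ : ContDiff ℝ (⊤ : ℕ∞) χ) {r : ℕ∞}
    {F : V d l m → V d l m} (hF : ContDiff ℝ r F) :
    ContDiff ℝ r (fun q : V d l m × V d l m => GG χ F q.1 q.2 - F q.2) := by
  have hχr : ContDiff ℝ r χ := hχ.of_le (by exact_mod_cast le_top)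
  have hT : ContDiff ℝ r (fun q : V d l m × V d l m => TT χ q.1 q.2) := by
    unfold TT
    exact contDiff_snd.add ((hχr.comp (contDiff_snd.comp (contDiff_snd.comp contDiff_snd))).smul
      contDiff_fst)
  have h1 : ContDiff ℝ r (fun q : V d l m × V d l m => TT χ (-q.1.1, 0, 0) q.2) :=
    hT.comp (((contDiff_fst.comp contDiff_fst).neg.prodMk contDiff_const).prodMk contDiff_snd)
  have h2 : ContDiff ℝ r (fun q : V d l m × V d l m =>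
      F (TT χ (0, q.1.2) (TT χ (-q.1.1, 0, 0) q.2))) :=
    hF.comp (hT.comp ((contDiff_const.prodMk (contDiff_snd.comp contDiff_fst)).prodMk h1))
  have h3 : ContDiff ℝ r (fun q : V d l m × V d l m => GG χ F q.1 q.2) :=
    hT.comp (((contDiff_fst.comp contDiff_fst).prodMk contDiff_const).prodMk h2)
  exact h3.sub (hF.comp contDiff_snd)

end Pool.Agent.H922R3.CLR
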