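import Pool.Agent.H922R3.CL.HypBase
import Pool.Agent.H922R3.CLR.Defs

set_option autoImplicit false
set_option linter.unusedSectionVars false

open Set Filter Topology Function

namespace Pool.Agent.H922R3.CLR

open Pool.Agent.H922R3.CL Pool.Agent.H922R3.CL.B

variable {W : Type*} [NormedAddCommGroup W] [NormedSpace ℝ W] [CompleteSpace W]

/-- Exponential closing: the orbit sums along the periodic orbit are close to those along the
orbit segment. -/
theorem hyp_sums [ProperSpace W] {Λ : AddSubgroup W} (hΛ : ∀ z : W, ∃ u ∈ Λ, ‖z - u‖ ≤ 1)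
    {W' : Type*} [NormedAddCommGroup W'] [NormedSpace ℝ W'] {h : W → W} {ω : W → W'}
    {L : W ≃L[ℝ] W} {Φ : W ≃ₜ W} {A : Λ ≃+ Λ} {C α K : ℝ} (hL : IsHypLin L)
    (hΦ : ∀ (z : W) (u : Λ), Φ (z + u) = Φ z + A u) (hhΦ : ∀ z, h (Φ z) = Φ (L z))
    (hC : 0 < C) (hα : 0 < α) (hH : ∀ z w, dist z w ≤ 1 → dist (Φ z) (Φ w) ≤ C * dist z w ^ α)
    (hω : ∀ z w, dist (ω z) (ω w) ≤ K * dist z w) :
    ∀ ε > 0, ∃ δ > 0, ∀ (n : ℕ) (w k : W), 1 ≤ n → k ∈ Λ →
      dist (h^[n] w) (w + k) < δ → ∃ p : W, h^[n] p = p + k ∧ dist p w < ε ∧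
        ‖∑ i ∈ Finset.range n, ω (h^[i] p) - ∑ i ∈ Finset.range n, ω (h^[i] w)‖ < ε := by
  obtain ⟨K₁, μ, hK₁, hμ, hμ1, hsh⟩ := shadow_exp hL
  have hΦs : ∀ (z : W) (u : Λ), Φ.symm (z + A u) = Φ.symm z + u := by
    intro z u
    rw [Homeomorph.symm_apply_eq, hΦ, Homeomorph.apply_symm_apply]
  have u2 : UniformContinuous Φ.symm := by
    apply qp_unif Λ hΛ Φ.symm Φ.symm.continuous
    intro u hu
    obtain ⟨u', hu'⟩ := A.surjective ⟨u, hu⟩
    refine ⟨u', fun z => ?_⟩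
    rw [← hΦs, hu']
  rw [Metric.uniformContinuous_iff] at u2
  have hit : ∀ (j : ℕ) (z : W), h^[j] (Φ z) = Φ (L^[j] z) := by
    intro j z
    induction j with
    | zero => rfl
    | succ j ih => rw [Function.iterate_succ_apply', ih, hhΦ, Function.iterate_succ_apply']
  -- constants
  set ν := μ ^ α with hν
  have hν0 : 0 < ν := Real.rpow_pos_of_pos hμ α
  have hν1 : ν < 1 := Real.rpow_lt_one hμ.le hμ1 hα
  have h1ν : 0 < 1 - ν := by linarith
  set M := C * (2 * K₁) ^ α with hM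
  have hM0 : 0 < M := by positivity
  set K' := max K 0 with hK'
  have hK'0 : 0 ≤ K' := le_max_right _ _
  intro ε hε
  -- choice of the size of the jump
  have htend : Tendsto (fun s : ℝ => M * s ^ α * 2 + K' * (M * s ^ α * (2 / (1 - ν)))) (𝓝[>] 0)
      (𝓝 0) := by
    have h1 : Tendsto (fun s : ℝ => s ^ α) (𝓝[>] 0) (𝓝 0) := by
      have := (Real.continuousAt_rpow_const 0 α (Or.inr hα.le)).tendsto
      rw [Real.zero_rpow hα.ne'] at this
      exact this.mono_left nhdsWithin_le_nhds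
    have h2 := (((h1.const_mul M).mul_const 2).add
      (((h1.const_mul M).mul_const (2 / (1 - ν))).const_mul K'))
    simpa using h2
  obtain ⟨s₀, hs₀, hs1, hs2⟩ : ∃ s₀ > 0, 2 * K₁ * s₀ ≤ 1 ∧
      M * s₀ ^ α * 2 + K' * (M * s₀ ^ α * (2 / (1 - ν))) < ε / 4 := by
    have h3 := (tendsto_order.mp htend).2 (ε / 4) (by linarith)
    have h4 : ∀ᶠ s : ℝ in 𝓝[>] 0, 2 * K₁ * s ≤ 1 := by
      have : Iio (1 / (2 * K₁)) ∈ 𝓝 (0 : ℝ) := Iio_mem_nhds (by positivity)
      filter_upwards [mem_nhdsWithin_of_mem_nhds this] with s hs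
      have : s < 1 / (2 * K₁) := hs
      rw [lt_div_iff₀ (by positivity)] at this
      linarith
    obtain ⟨s, ⟨h5, h6⟩, h7⟩ := ((h3.and h4).and self_mem_nhdsWithin).exists
    exact ⟨s, h7, h6, h5⟩
  obtain ⟨δ, hδ, h2⟩ := u2 s₀ hs₀
  refine ⟨δ, hδ, fun n w k hn hk hw => ?_⟩
  have hw' := hw
  have hn0 : (0 : ℝ) < n := by exact_mod_cast hn
  obtain ⟨l, hl⟩ := A.surjective ⟨k, hk⟩
  have hl' : (A l : W) = k := congrArg Subtype.val hl
  set a := Φ.symm w with ha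
  have hΦa : Φ a = w := by rw [ha, Homeomorph.apply_symm_apply]
  have e1 : Φ.symm (w + k) = a + l := by rw [← hl', hΦs]
  have e2 : Φ.symm (h^[n] w) = L^[n] a := by
    rw [Homeomorph.symm_apply_eq, ← hit, hΦa]
  have h3 : dist (L^[n] a) (a + l) < s₀ := by
    rw [← e1, ← e2]
    exact h2 hw'
  obtain ⟨u, hu1, hu2⟩ := hsh n a (L^[n] a - (a + l)) hn
  set e := L^[n] a - (a + l) with he
  have he0 : ‖e‖ < s₀ := by rw [he, ← dist_eq_norm]; exact h3
  have hLadd : ∀ (j : ℕ) (x y : W), L^[j] (x + y) = L^[j] x + L^[j] y := by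
    intro j x y
    rw [iter_clm, iter_clm, iter_clm, map_add]
  set p := Φ (a + u) with hp
  have hdist : ∀ j ≤ n, dist (h^[j] p) (h^[j] w) ≤ M * s₀ ^ α * (ν ^ j + ν ^ (n - j)) := by
    intro j hj
    rw [hp, ← hΦa, hit, hit, hLadd]
    have d1 : dist (L^[j] a + L^[j] u) (L^[j] a) = ‖L^[j] u‖ := by
      rw [dist_eq_norm, add_sub_cancel_left]
    have d2 := hu2 j hj
    have p1 : μ ^ j ≤ 1 := pow_le_one₀ hμ.le hμ1.le
    have p2 : μ ^ (n - j) ≤ 1 := pow_le_one₀ hμ.le hμ1.le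
    have p3 : 0 < μ ^ j := pow_pos hμ _
    have p4 : 0 < μ ^ (n - j) := pow_pos hμ _
    set q := max (μ ^ j) (μ ^ (n - j)) with hq
    have hq0 : 0 < q := lt_max_of_lt_left p3
    have d3 : ‖L^[j] u‖ ≤ 2 * K₁ * s₀ * q := by
      have : μ ^ j + μ ^ (n - j) ≤ 2 * q := by
        have := le_max_left (μ ^ j) (μ ^ (n - j))
        have := le_max_right (μ ^ j) (μ ^ (n - j))
        linarith
      calc ‖L^[j] u‖ ≤ K₁ * (μ ^ j + μ ^ (n - j)) * ‖e‖ := d2
        _ ≤ K₁ * (2 * q) * s₀ := by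
          apply mul_le_mul (mul_le_mul_of_nonneg_left this hK₁.le) he0.le (norm_nonneg _)
          positivity
        _ = 2 * K₁ * s₀ * q := by ring
    have d4 : ‖L^[j] u‖ ≤ 1 := by
      refine d3.trans ?_
      have : q ≤ 1 := max_le p1 p2
      calc 2 * K₁ * s₀ * q ≤ 2 * K₁ * s₀ * 1 := mul_le_mul_of_nonneg_left this (by positivity)
        _ ≤ 1 := by rw [mul_one]; exact hs1
    have d5 := hH (L^[j] a + L^[j] u) (L^[j] a) (by rw [d1]; exact d4)
    rw [d1] at d5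
    refine d5.trans ?_
    have d6 : ‖L^[j] u‖ ^ α ≤ (2 * K₁ * s₀ * q) ^ α :=
      Real.rpow_le_rpow (norm_nonneg _) d3 hα.le
    have d7 : (2 * K₁ * s₀ * q) ^ α = (2 * K₁) ^ α * s₀ ^ α * q ^ α := by
      rw [Real.mul_rpow (by positivity) hq0.le, Real.mul_rpow (by positivity) hs₀.le]
    have d8 : q ^ α ≤ ν ^ j + ν ^ (n - j) := by
      have n1 : ∀ i : ℕ, (μ ^ i) ^ α = ν ^ i := fun i => by
        rw [hν, ← Real.rpow_natCast, ← Real.rpow_natCast, ← Real.rpow_mul hμ.le,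
          ← Real.rpow_mul hμ.le, mul_comm]
      have n2 : 0 < ν ^ j := pow_pos hν0 _
      have n3 : 0 < ν ^ (n - j) := pow_pos hν0 _
      rcases max_cases (μ ^ j) (μ ^ (n - j)) with ⟨h8, _⟩ | ⟨h8, _⟩
      · rw [hq, h8, n1]; linarith
      · rw [hq, h8, n1]; linarith
    calc C * ‖L^[j] u‖ ^ α ≤ C * ((2 * K₁) ^ α * s₀ ^ α * q ^ α) := by
          rw [← d7]; exact mul_le_mul_of_nonneg_left d6 hC.le
      _ = M * s₀ ^ α * q ^ α := by rw [hM]; ring
      _ ≤ M * s₀ ^ α * (ν ^ j + ν ^ (n - j)) := mul_le_mul_of_nonneg_left d8 (by positivity)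
  have hgs : ∀ j : ℕ, ∑ i ∈ Finset.range j, ν ^ i ≤ 1 / (1 - ν) := by
    intro j
    rw [one_div, ← tsum_geometric_of_lt_one hν0.le hν1]
    exact (summable_geometric_of_lt_one hν0.le hν1).sum_le_tsum _ (fun i _ => (pow_pos hν0 i).le)
  have hgs' : ∀ j ≤ n, ∑ i ∈ Finset.range j, ν ^ (n - i) ≤ 1 / (1 - ν) := by
    intro j hj
    have h5 : ∑ i ∈ Finset.range j, ν ^ (n - i) ≤ ∑ i ∈ Finset.range j, ν ^ (j - 1 - i) := by
      apply Finset.sum_le_sum
      intro i hi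
      apply pow_le_pow_of_le_one hν0.le hν1.le
      have := Finset.mem_range.mp hi
      omega
    rw [Finset.sum_range_reflect (fun i => ν ^ i) j] at h5
    exact h5.trans (hgs j)
  -- the sums
  have hsumd : ∀ j ≤ n, ‖∑ i ∈ Finset.range j, ω (h^[i] p) - ∑ i ∈ Finset.range j, ω (h^[i] w)‖ ≤
      K' * (M * s₀ ^ α * (2 / (1 - ν))) := by
    intro j hj
    rw [← Finset.sum_sub_distrib]
    refine (norm_sum_le _ _).trans ?_
    have h5 : ∀ i ∈ Finset.range j, ‖ω (h^[i] p) - ω (h^[i] w)‖ ≤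
        K' * (M * s₀ ^ α * (ν ^ i + ν ^ (n - i))) := by
      intro i hi
      have hij := Finset.mem_range.mp hi
      rw [← dist_eq_norm]
      refine (hω _ _).trans ?_
      calc K * dist (h^[i] p) (h^[i] w) ≤ K' * dist (h^[i] p) (h^[i] w) :=
            mul_le_mul_of_nonneg_right (le_max_left _ _) dist_nonneg
        _ ≤ _ := mul_le_mul_of_nonneg_left (hdist i (by omega)) hK'0
    refine (Finset.sum_le_sum h5).trans ?_
    rw [← Finset.mul_sum, ← Finset.mul_sum]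
    apply mul_le_mul_of_nonneg_left _ hK'0
    apply mul_le_mul_of_nonneg_left _ (by positivity)
    rw [Finset.sum_add_distrib]
    have := hgs j
    have := hgs' j hj
    have e5 : 2 / (1 - ν) = 1 / (1 - ν) + 1 / (1 - ν) := by ring
    rw [e5]
    linarith
  set S := K' * (M * s₀ ^ α * (2 / (1 - ν))) with hS
  have hS0 : 0 ≤ S := by positivity
  have hMs : 0 < M * s₀ ^ α := by positivity
  have hSε : S < ε / 4 := by linarith
  refine ⟨p, ?_, ?_, (hsumd n le_rfl).trans_lt (by linarith)⟩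
  · have e8 : L^[n] (a + u) = a + u + l := by
      rw [hLadd, hu1, he]
      abel
    rw [hp, hit, e8, hΦ, hl']
  · refine (hdist 0 (Nat.zero_le _)).trans_lt ?_
    have p1 : ν ^ 0 ≤ 1 := pow_le_one₀ hν0.le hν1.le
    have p2 : ν ^ (n - 0) ≤ 1 := pow_le_one₀ hν0.le hν1.le
    have : M * s₀ ^ α * (ν ^ 0 + ν ^ (n - 0)) ≤ M * s₀ ^ α * 2 :=
      mul_le_mul_of_nonneg_left (by linarith) hMs.le
    linarith

end Pool.Agent.H922R3.CLR
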