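import Pool.Agent.H922R3.CLR.Near
import Pool.Agent.H922R3.CLR.Sums

set_option autoImplicit false
set_option linter.unusedSectionVars false

open Set Filter Topology Function

namespace Pool.Agent.H922R3.CLR

open Pool.Agent.H922R3.CL

variable {d l m : ℕ}

theorem iter_form {F : V d l m → V d l m}
    {h : (Fin d → ℝ) → (Fin d → ℝ)} {ω : (Fin d → ℝ) → (Fin l → ℝ)}
    {φ : (Fin d → ℝ) → (Fin m → ℝ)} (hF : ∀ b θ y, F (b, θ, y) = (h b, θ + ω b, y + φ b))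
    (b : Fin d → ℝ) (θ : Fin l → ℝ) (y : Fin m → ℝ) (n : ℕ) :
    F^[n] (b, θ, y) = (h^[n] b, θ + ∑ i ∈ Finset.range n, ω (h^[i] b),
      y + ∑ i ∈ Finset.range n, φ (h^[i] b)) := by
  induction n with
  | zero => simp
  | succ n ih =>
    rw [Function.iterate_succ_apply', ih, hF, ← Function.iterate_succ_apply' h n b,
      Finset.sum_range_succ, Finset.sum_range_succ, add_assoc, add_assoc]

theorem main {r : ℕ∞} (hr : 1 ≤ r) {F : V d l m ≃ V d l m} (hF : IsAbExt r F) {z : V d l m}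
    (hz : ExtNonwand F z) : StronglyClosable r F z := by
  obtain ⟨hd, h, ω, φ, hform, L, Φ, A, C, α, hL, -, hΦ, hhΦ, hC, hα, hHo⟩ := hF
  obtain ⟨b₀, θ₀, y₀⟩ := z
  obtain ⟨B, hB⟩ := hd.equiv
  have hr1 : (1 : WithTop ℕ∞) ≤ (r : WithTop ℕ∞) := by exact_mod_cast hr
  have hr0 : (r : WithTop ℕ∞) ≠ 0 := fun h => by
    rw [h] at hr1
    exact absurd hr1 (by norm_num)
  -- the cocycle
  let Ω : (Fin d → ℝ) → (Fin l → ℝ) × (Fin m → ℝ) := fun b => (ω b, φ b)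
  have hΩF : ∀ b, Ω b = (F (b, 0, 0)).2 := by
    intro b
    show (ω b, φ b) = (F (b, 0, 0)).2
    rw [hform]
    show _ = ((0 : Fin l → ℝ) + ω b, (0 : Fin m → ℝ) + φ b)
    rw [zero_add, zero_add]
  have hΩs : ContDiff ℝ r Ω := by
    have e1 : Ω = fun b => (F (b, 0, 0)).2 := funext hΩF
    rw [e1]
    exact contDiff_snd.comp (hd.smooth.comp (contDiff_id.prodMk contDiff_const))
  have hmem : ∀ u ∈ Zn d, ((u, 0, 0) : V d l m) ∈ ZR d l m := fun u hu =>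
    ⟨hu, (Zn l).zero_mem, by simp⟩
  have hΩp : ∀ u ∈ Zn d, ∃ c : (Fin l → ℝ) × (Fin m → ℝ), c.2 = 0 ∧ ∀ b, Ω (b + u) = Ω b + c := by
    intro u hu
    refine ⟨(B ⟨(u, 0, 0), hmem u hu⟩ : V d l m).2, ?_, fun b => ?_⟩
    · have := (B ⟨(u, 0, 0), hmem u hu⟩).2.2.2
      simpa using this
    · have h1 := hB (b, 0, 0) ⟨(u, 0, 0), hmem u hu⟩
      have e2 : ((b, 0, 0) : V d l m) + (u, 0, 0) = (b + u, 0, 0) := by
        rw [Prod.mk_add_mk, Prod.mk_add_mk, add_zero, add_zero]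
      rw [hΩF, hΩF, ← e2]
      exact congrArg Prod.snd h1
  have hΩd : Differentiable ℝ Ω := hΩs.differentiable hr0
  obtain ⟨K, hK0, hK⟩ := G.per_bdd (Zn_near d) (hΩs.continuous_fderiv hr0) (by
    intro u hu b
    obtain ⟨c, -, hc⟩ := hΩp u hu
    have e3 : (fun b => Ω (b + u)) = fun b => Ω b + c := funext hc
    rw [← fderiv_comp_add_right, e3, fderiv_add_const])
  have hΩL : ∀ x y, dist (Ω x) (Ω y) ≤ K * dist x y := fun x y => by
    rw [dist_eq_norm, dist_eq_norm]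
    have := Convex.norm_image_sub_le_of_norm_fderiv_le (f := Ω) (s := univ) (x := y) (y := x)
      (C := K) (fun x _ => hΩd x) (fun x _ => hK x) convex_univ (mem_univ _) (mem_univ _)
    exact this
  have hφc : Continuous φ := continuous_snd.comp hΩs.continuous
  obtain ⟨Cφ, hCφ0, hCφ⟩ := G.per_bdd (Zn_near d) hφc (by
    intro u hu b
    obtain ⟨c, hc0, hc⟩ := hΩp u hu
    have h1 := congrArg Prod.snd (hc b)
    have h2 : φ (b + u) = φ b + c.2 := h1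
    rw [h2, hc0, add_zero])
  -- the bump function
  let f : ContDiffBump y₀ := ⟨1 / 2, 1, by norm_num, by norm_num⟩
  have hfs : ContDiff ℝ (⊤ : ℕ∞) (f : (Fin m → ℝ) → ℝ) := f.contDiff
  have hf1 : f y₀ = 1 := f.one_of_mem_closedBall (Metric.mem_closedBall_self (by
    show (0 : ℝ) ≤ 1 / 2
    norm_num))
  have hf0 : ∀ y, 0 ≤ f y := fun y => f.nonneg
  obtain ⟨C₁, hC₁⟩ := (hfs.continuous_fderiv (by simp)).bounded_above_of_compact_support
    (f.hasCompactSupport.fderiv (𝕜 := ℝ))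
  have hC₁0 : 0 ≤ C₁ := (norm_nonneg _).trans (hC₁ 0)
  have hfR : ∀ y : Fin m → ℝ, ‖y₀‖ + 1 ≤ ‖y‖ → f y = 0 := by
    intro y hy
    apply f.zero_of_le_dist
    show (1 : ℝ) ≤ dist y y₀
    rw [dist_eq_norm]
    have := norm_sub_norm_le y y₀
    linarith
  have hR : ∀ x : V d l m, ‖y₀‖ + 1 + Cφ ≤ ‖x.2.2‖ → f x.2.2 = 0 ∧ f (F x).2.2 = 0 := by
    rintro ⟨b, θ, y⟩ hx
    have hx' : ‖y₀‖ + 1 + Cφ ≤ ‖y‖ := hx
    refine ⟨hfR y (by linarith), ?_⟩
    rw [hform]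
    apply hfR
    have h1 := hCφ b
    have h2 : ‖y‖ ≤ ‖y + φ b‖ + ‖φ b‖ := by
      calc ‖y‖ = ‖(y + φ b) - φ b‖ := by rw [add_sub_cancel_right]
        _ ≤ _ := norm_sub_le _ _
    linarith
  refine ⟨‖y₀‖ + 1 + Cφ, fun k hk ε hε => ?_⟩
  obtain ⟨δ₁, hδ₁, hnear⟩ := GG_near hfs hd hR hk hε
  set η := min δ₁ (1 / (2 * (C₁ + 1))) with hη
  have hη0 : 0 < η := lt_min hδ₁ (by positivity)
  obtain ⟨δ₂, hδ₂, hs⟩ := hyp_sums (Zn_near d) (h := h) (ω := Ω) hL hΦ hhΦ hC hα hHo hΩL (η / 2)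
    (by positivity)
  set δ := min (η / 4) (δ₂ / 2) with hδ
  have hδ0 : 0 < δ := lt_min (by positivity) (by positivity)
  have hδη : δ ≤ η / 4 := min_le_left _ _
  have hδδ : δ ≤ δ₂ / 2 := min_le_right _ _
  obtain ⟨n, ⟨bw, θw, yw⟩, ⟨u, κ, u'⟩, hn, hu, hw1, hw2⟩ := hz δ hδ0
  obtain ⟨hu1, hu2, hu3⟩ := hu
  have hu' : u' = 0 := by simpa using hu3
  subst hu'
  rw [iter_form hform] at hw2
  have hw1' : dist bw b₀ < δ ∧ dist θw θ₀ < δ ∧ dist yw y₀ < δ := by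
    rw [Prod.dist_eq] at hw1
    have h1 := (max_lt_iff.mp hw1).1
    have h2 := (max_lt_iff.mp hw1).2
    rw [Prod.dist_eq] at h2
    exact ⟨h1, (max_lt_iff.mp h2).1, (max_lt_iff.mp h2).2⟩
  obtain ⟨a1, a2, a3⟩ := hw1'
  have hw2' : dist (h^[n] bw) (b₀ + u) < δ ∧
      dist (θw + ∑ i ∈ Finset.range n, ω (h^[i] bw)) (θ₀ + κ) < δ ∧
      dist (yw + ∑ i ∈ Finset.range n, φ (h^[i] bw)) (y₀ + 0) < δ := by
    rw [Prod.dist_eq] at hw2
    have h1 := (max_lt_iff.mp hw2).1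
    have h2 := (max_lt_iff.mp hw2).2
    rw [Prod.dist_eq] at h2
    exact ⟨h1, (max_lt_iff.mp h2).1, (max_lt_iff.mp h2).2⟩
  obtain ⟨c1, c2, c3⟩ := hw2'
  obtain ⟨p, hp, hpw, hsum⟩ := hs n bw u hn hu1 (by
    calc dist (h^[n] bw) (bw + u) ≤ dist (h^[n] bw) (b₀ + u) + dist (b₀ + u) (bw + u) :=
          dist_triangle _ _ _
      _ = dist (h^[n] bw) (b₀ + u) + dist bw b₀ := by rw [dist_add_right, dist_comm b₀ bw]
      _ < δ + δ := add_lt_add c1 a1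
      _ ≤ δ₂ := by linarith)
  have hsum' : ‖∑ i ∈ Finset.range n, ω (h^[i] p) - ∑ i ∈ Finset.range n, ω (h^[i] bw)‖ < η / 2 ∧
      ‖∑ i ∈ Finset.range n, φ (h^[i] p) - ∑ i ∈ Finset.range n, φ (h^[i] bw)‖ < η / 2 := by
    constructor
    · refine lt_of_le_of_lt (le_of_eq_of_le ?_ (norm_fst_le _)) hsum
      rw [Prod.fst_sub, Prod.fst_sum, Prod.fst_sum]
    · refine lt_of_le_of_lt (le_of_eq_of_le ?_ (norm_snd_le _)) hsum
      rw [Prod.snd_sub, Prod.snd_sum, Prod.snd_sum]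
  obtain ⟨P, hP, hper⟩ := GG_per (χ := f) hfs.continuous hf0 hform (b₀ := b₀) (p := p) (k := u)
    (θ₀ := θ₀) (κ := κ) (y₀ := y₀) hf1 hn hp (η := η) (by
      rw [← dist_eq_norm]
      calc dist b₀ p ≤ dist b₀ bw + dist bw p := dist_triangle _ _ _
        _ = dist bw b₀ + dist p bw := by rw [dist_comm b₀, dist_comm bw p]
        _ < δ + η / 2 := add_lt_add a1 hpw
        _ ≤ η := by linarith) (by
      have e4 : κ - ∑ i ∈ Finset.range n, ω (h^[i] p) =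
          -((θw + ∑ i ∈ Finset.range n, ω (h^[i] bw)) - (θ₀ + κ)) + (θw - θ₀) -
          (∑ i ∈ Finset.range n, ω (h^[i] p) - ∑ i ∈ Finset.range n, ω (h^[i] bw)) := by
        abel
      rw [e4]
      have b1 := norm_sub_le (-((θw + ∑ i ∈ Finset.range n, ω (h^[i] bw)) - (θ₀ + κ)) + (θw - θ₀))
          (∑ i ∈ Finset.range n, ω (h^[i] p) - ∑ i ∈ Finset.range n, ω (h^[i] bw))
      have b2 := norm_add_le (-((θw + ∑ i ∈ Finset.range n, ω (h^[i] bw)) - (θ₀ + κ))) (θw - θ₀)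
      rw [norm_neg, ← dist_eq_norm, ← dist_eq_norm] at b2
      have b3 := hsum'.1
      linarith) (by
      have e4 : ∑ i ∈ Finset.range n, φ (h^[i] p) =
          ((yw + ∑ i ∈ Finset.range n, φ (h^[i] bw)) - (y₀ + 0)) - (yw - y₀) +
          (∑ i ∈ Finset.range n, φ (h^[i] p) - ∑ i ∈ Finset.range n, φ (h^[i] bw)) := by
        abel
      rw [e4]
      have b1 := norm_add_le (((yw + ∑ i ∈ Finset.range n, φ (h^[i] bw)) - (y₀ + 0)) - (yw - y₀))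
          (∑ i ∈ Finset.range n, φ (h^[i] p) - ∑ i ∈ Finset.range n, φ (h^[i] bw))
      have b2 := norm_sub_le ((yw + ∑ i ∈ Finset.range n, φ (h^[i] bw)) - (y₀ + 0)) (yw - y₀)
      have c3' := c3
      have a3' := a3
      rw [dist_eq_norm] at c3' a3'
      have b3 := hsum'.2
      linarith)
  have hPη : ‖P‖ ≤ 1 / (2 * (C₁ + 1)) := hP.le.trans (min_le_right _ _)
  obtain ⟨G, hG, hGd⟩ := GG_equiv hfs hC₁ hr hd (P := P) (by
    calc C₁ * ‖P‖ ≤ C₁ * (1 / (2 * (C₁ + 1))) := mul_le_mul_of_nonneg_left hPη hC₁0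
      _ ≤ (C₁ + 1) * (1 / (2 * (C₁ + 1))) :=
        mul_le_mul_of_nonneg_right (by linarith) (by positivity)
      _ = 1 / 2 := by field_simp)
  have hGf : (G : V d l m → V d l m) = GG f F P := funext hG
  have hz0 : ∀ u : ZR d l m, (u : V d l m).2.2 = 0 := fun u => by
    have := u.2.2.2
    simpa using this
  refine ⟨G, hGd, fun x hx => ?_, fun j hj x => ?_, n, hn, ?_⟩
  · obtain ⟨h1, h2⟩ := hR x hx
    rw [hG, GG, TT_out _ h1, TT_out _ h1, TT_out _ h2]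
  · rw [hGf]
    exact hnear P (hP.trans_le (min_le_left _ _)) j hj x
  · rw [hGf, hper]
    have e5 : ((b₀ + u, θ₀ + κ, y₀) : V d l m) - (b₀, θ₀, y₀) = (u, κ, 0) := by
      rw [Prod.mk_sub_mk, Prod.mk_sub_mk, add_sub_cancel_left, add_sub_cancel_left, sub_self]
    rw [e5]
    exact ⟨hu1, hu2, by simp⟩

end Pool.Agent.H922R3.CLR
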