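import Pool.Agent.H922R3.CLR.Fam

set_option autoImplicit false
set_option linter.unusedSectionVars false

open Set Filter Topology Function

namespace Pool.Agent.H922R3.CLR

open Pool.Agent.H922R3.CL

variable {d l m : ℕ}

/-- `C^k`-smallness of the perturbations. -/
theorem GG_near {χ : (Fin m → ℝ) → ℝ} (hχ : ContDiff ℝ (⊤ : ℕ∞) χ) {r : ℕ∞}
    {F : V d l m ≃ V d l m} (hF : IsDiffeoLift (ZR d l m) r F) {R : ℝ}
    (hR : ∀ x : V d l m, R ≤ ‖x.2.2‖ → χ x.2.2 = 0 ∧ χ (F x).2.2 = 0)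
    {k : ℕ} (hk : (k : ℕ∞) ≤ r) {ε : ℝ} (hε : 0 < ε) :
    ∃ δ > 0, ∀ P : V d l m, ‖P‖ < δ → ∀ j ≤ k, ∀ x,
      ‖iteratedFDeriv ℝ j (fun x => GG χ F P x - F x) x‖ < ε := by
  obtain ⟨A, hA⟩ := hF.equiv
  have hz : ∀ u : ZR d l m, (u : V d l m).2.2 = 0 := fun u => by
    have := u.2.2.2
    simpa using this
  have hinv : ∀ (P x : V d l m) (u : ZR d l m),
      GG χ F P (x + u) - F (x + u) = GG χ F P x - F x := by
    intro P x u
    rw [GG, GG, TT_latt _ _ _ (hz u), TT_latt _ _ _ (hz u), hA, TT_latt _ _ _ (hz _), hA]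
    abel
  have hout : ∀ (P x : V d l m), R ≤ ‖x.2.2‖ → GG χ F P x - F x = 0 := by
    intro P x hx
    obtain ⟨h1, h2⟩ := hR x hx
    rw [GG, TT_out _ h1, TT_out _ h1, TT_out _ h2, sub_self]
  obtain ⟨δ, hδ, h⟩ := ck_param (GG_smooth hχ hF.smooth) (fun x => by
      show GG χ F 0 x - F x = 0
      rw [GG_zero, sub_self])
    (isCompact_closedBall (0 : V d l m) (max 1 R)) hk hε
  refine ⟨δ, hδ, fun P hP j hj x => ?_⟩
  rcases le_or_gt ‖x.2.2‖ R with hx | hx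
  · obtain ⟨b, θ, y⟩ := x
    obtain ⟨u, hu, hbu⟩ := Zn_near d b
    obtain ⟨v, hv, hθv⟩ := Zn_near l θ
    have huv : ((u, v, 0) : V d l m) ∈ ZR d l m := ⟨hu, hv, by simp⟩
    have e1 : (fun x => GG χ F P x - F x) =
        fun x => (fun x => GG χ F P x - F x) (x + -((u, v, 0) : V d l m)) := by
      funext x
      have := hinv P (x + -((u, v, 0) : V d l m)) ⟨_, huv⟩
      rw [neg_add_cancel_right] at this
      exact this
    have e2 : iteratedFDeriv ℝ j (fun x => GG χ F P x - F x) (b, θ, y) =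
        iteratedFDeriv ℝ j (fun x => GG χ F P x - F x) ((b, θ, y) + -((u, v, 0) : V d l m)) := by
      conv_lhs => rw [e1]
      exact iteratedFDeriv_comp_add_right (𝕜 := ℝ) (f := fun x => GG χ F P x - F x) j _ _
    rw [e2]
    apply h P hP j hj
    rw [mem_closedBall_zero_iff]
    show ‖(b + -u, θ + -v, y + -(0 : Fin m → ℝ))‖ ≤ _
    rw [neg_zero, add_zero, ← sub_eq_add_neg, ← sub_eq_add_neg, Prod.norm_def]
    apply max_le (hbu.trans (le_max_left _ _))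
    show ‖(θ - v, y)‖ ≤ _
    rw [Prod.norm_def]
    exact max_le (hθv.trans (le_max_left _ _)) (le_trans hx (le_max_right _ _))
  · have hev : (fun x => GG χ F P x - F x) =ᶠ[𝓝 x] fun _ => 0 := by
      have : {x : V d l m | R < ‖x.2.2‖} ∈ 𝓝 x :=
        (isOpen_lt continuous_const (continuous_snd.comp continuous_snd).norm).mem_nhds hx
      filter_upwards [this] with x' hx'
      exact hout P x' (le_of_lt hx')
    have h1 := (Filter.EventuallyEq.iteratedFDeriv (𝕜 := ℝ) hev j).eq_of_nhds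
    rw [h1]
    have e3 : iteratedFDeriv ℝ j (fun _ : V d l m => (0 : V d l m)) x = 0 := by
      have := iteratedFDeriv_fun_zero (𝕜 := ℝ) (E := V d l m) (F := V d l m) (n := j)
      exact congrFun this x
    rw [e3, norm_zero]
    exact hε

/-- The fibre coordinates of the orbit. -/
def Yt (χ : (Fin m → ℝ) → ℝ) (y₀ D : Fin m → ℝ) (c : ℕ → Fin m → ℝ) (t : ℝ) : ℕ → Fin m → ℝ
  | 0 => y₀
  | i + 1 => Yt χ y₀ D c t i + χ (Yt χ y₀ D c t i) • (-(t • D)) + c i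

theorem Yt_cont {χ : (Fin m → ℝ) → ℝ} (hχ : Continuous χ) (y₀ D : Fin m → ℝ)
    (c : ℕ → Fin m → ℝ) (i : ℕ) : Continuous fun t => Yt χ y₀ D c t i := by
  induction i with
  | zero => exact continuous_const
  | succ i ih =>
    show Continuous fun t => Yt χ y₀ D c t i + χ (Yt χ y₀ D c t i) • (-(t • D)) + c i
    exact (ih.add ((hχ.comp ih).smul (continuous_id.smul continuous_const).neg)).add
      continuous_const

theorem Yt_sum (χ : (Fin m → ℝ) → ℝ) (y₀ D : Fin m → ℝ) (c : ℕ → Fin m → ℝ) (t : ℝ) (n : ℕ) :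
    Yt χ y₀ D c t n = y₀ + (∑ i ∈ Finset.range n, χ (Yt χ y₀ D c t i)) • (-(t • D)) +
      ∑ i ∈ Finset.range n, c i := by
  induction n with
  | zero => simp [Yt]
  | succ n ih =>
    rw [Finset.sum_range_succ, Finset.sum_range_succ, add_smul]
    calc Yt χ y₀ D c t n + χ (Yt χ y₀ D c t n) • (-(t • D)) + c n =
        (y₀ + (∑ i ∈ Finset.range n, χ (Yt χ y₀ D c t i)) • (-(t • D)) +
          ∑ i ∈ Finset.range n, c i) + χ (Yt χ y₀ D c t n) • (-(t • D)) + c n := by rw [← ih]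
      _ = _ := by abel

/-- One can choose the size of the push so that the orbit returns. -/
theorem exists_push {χ : (Fin m → ℝ) → ℝ} (hχ : Continuous χ) (h0 : ∀ y, 0 ≤ χ y)
    {y₀ D : Fin m → ℝ} (h1 : χ y₀ = 1) {c : ℕ → Fin m → ℝ} {n : ℕ} (hn : 1 ≤ n)
    (hD : ∑ i ∈ Finset.range n, c i = D) :
    ∃ t : ℝ, 0 ≤ t ∧ t ≤ 1 ∧ 1 ≤ ∑ i ∈ Finset.range n, χ (Yt χ y₀ D c t i) ∧
      Yt χ y₀ D c t n = y₀ := by
  have hs : ∀ t, 1 ≤ ∑ i ∈ Finset.range n, χ (Yt χ y₀ D c t i) := by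
    intro t
    have h2 : χ (Yt χ y₀ D c t 0) ≤ ∑ i ∈ Finset.range n, χ (Yt χ y₀ D c t i) :=
      Finset.single_le_sum (f := fun i => χ (Yt χ y₀ D c t i)) (fun i _ => h0 _)
        (Finset.mem_range.mpr (by omega))
    have h3 : χ (Yt χ y₀ D c t 0) = 1 := h1
    linarith
  have hc : Continuous fun t => t * ∑ i ∈ Finset.range n, χ (Yt χ y₀ D c t i) :=
    continuous_id.mul (continuous_finsetSum _ fun i _ => hχ.comp (Yt_cont hχ y₀ D c i))
  have h4 := intermediate_value_Icc (zero_le_one' ℝ) hc.continuousOn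
  obtain ⟨t, ⟨ht0, ht1⟩, ht⟩ := h4 (show (1 : ℝ) ∈ Icc _ _ from
    ⟨by simp, by have := hs 1; simpa using this⟩)
  refine ⟨t, ht0, ht1, hs t, ?_⟩
  rw [Yt_sum, hD]
  have ht' : t * ∑ i ∈ Finset.range n, χ (Yt χ y₀ D c t i) = 1 := ht
  have e1 : (∑ i ∈ Finset.range n, χ (Yt χ y₀ D c t i)) • (-(t • D)) = -D := by
    rw [smul_neg, smul_smul, mul_comm, ht', one_smul]
  rw [e1]
  abel

/-- The orbit of the perturbed map. -/
theorem orbit_eq {χ : (Fin m → ℝ) → ℝ} {F : V d l m → V d l m}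
    {h : (Fin d → ℝ) → (Fin d → ℝ)} {ω : (Fin d → ℝ) → (Fin l → ℝ)}
    {φ : (Fin d → ℝ) → (Fin m → ℝ)} (hF : ∀ b θ y, F (b, θ, y) = (h b, θ + ω b, y + φ b))
    (p : Fin d → ℝ) (θ₀ β : Fin l → ℝ) (y₀ D : Fin m → ℝ) (t : ℝ) (n : ℕ) :
    (fun x => F (TT χ (0, β, -(t • D)) x))^[n] (p, θ₀, y₀) = (h^[n] p,
      θ₀ + (∑ i ∈ Finset.range n, χ (Yt χ y₀ D (fun i => φ (h^[i] p)) t i)) • β +
        ∑ i ∈ Finset.range n, ω (h^[i] p),
      Yt χ y₀ D (fun i => φ (h^[i] p)) t n) := by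
  induction n with
  | zero => simp [Yt]
  | succ n ih =>
    rw [Function.iterate_succ_apply', ih]
    show F (TT χ (0, β, -(t • D)) (_, _, _)) = _
    have e1 : TT χ ((0, β, -(t • D)) : V d l m) (h^[n] p,
      θ₀ + (∑ i ∈ Finset.range n, χ (Yt χ y₀ D (fun i => φ (h^[i] p)) t i)) • β +
        ∑ i ∈ Finset.range n, ω (h^[i] p), Yt χ y₀ D (fun i => φ (h^[i] p)) t n) =
      (h^[n] p, θ₀ + (∑ i ∈ Finset.range n, χ (Yt χ y₀ D (fun i => φ (h^[i] p)) t i)) • β +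
        ∑ i ∈ Finset.range n, ω (h^[i] p) + χ (Yt χ y₀ D (fun i => φ (h^[i] p)) t n) • β,
        Yt χ y₀ D (fun i => φ (h^[i] p)) t n +
          χ (Yt χ y₀ D (fun i => φ (h^[i] p)) t n) • (-(t • D))) := by
      show (_ + χ _ • _, _ + χ _ • _, _ + χ _ • _) = _
      rw [smul_zero, add_zero]
    rw [e1, hF, ← Function.iterate_succ_apply' h n p]
    congr 1
    congr 1
    rw [Finset.sum_range_succ, Finset.sum_range_succ, add_smul]
    abel

/-- Closing the orbit. -/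
theorem GG_per {χ : (Fin m → ℝ) → ℝ} (hχ : Continuous χ) (h0 : ∀ y, 0 ≤ χ y)
    {F : V d l m → V d l m}
    {h : (Fin d → ℝ) → (Fin d → ℝ)} {ω : (Fin d → ℝ) → (Fin l → ℝ)}
    {φ : (Fin d → ℝ) → (Fin m → ℝ)} (hF : ∀ b θ y, F (b, θ, y) = (h b, θ + ω b, y + φ b))
    {b₀ p k : Fin d → ℝ} {θ₀ κ : Fin l → ℝ} {y₀ : Fin m → ℝ} (h1 : χ y₀ = 1) {n : ℕ} (hn : 1 ≤ n)
    (hp : h^[n] p = p + k) {η : ℝ} (hη1 : ‖b₀ - p‖ < η)
    (hη2 : ‖κ - ∑ i ∈ Finset.range n, ω (h^[i] p)‖ < η)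
    (hη3 : ‖∑ i ∈ Finset.range n, φ (h^[i] p)‖ < η) :
    ∃ P : V d l m, ‖P‖ < η ∧ (GG χ F P)^[n] (b₀, θ₀, y₀) = (b₀ + k, θ₀ + κ, y₀) := by
  set D := ∑ i ∈ Finset.range n, φ (h^[i] p) with hD
  obtain ⟨t, ht0, ht1, hs, hY⟩ := exists_push hχ h0 (y₀ := y₀) (D := D) h1
    (c := fun i => φ (h^[i] p)) hn rfl
  set s := ∑ i ∈ Finset.range n, χ (Yt χ y₀ D (fun i => φ (h^[i] p)) t i) with hsdef
  have hs0 : 0 < s := by linarith
  set S := ∑ i ∈ Finset.range n, ω (h^[i] p) with hS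
  set β : Fin l → ℝ := s⁻¹ • (κ - S) with hβ
  have hβn : ‖β‖ ≤ ‖κ - S‖ := by
    rw [hβ, norm_smul, norm_inv, Real.norm_eq_abs, abs_of_pos hs0]
    have : s⁻¹ ≤ 1 := inv_le_one_of_one_le₀ hs
    calc s⁻¹ * ‖κ - S‖ ≤ 1 * ‖κ - S‖ := mul_le_mul_of_nonneg_right this (norm_nonneg _)
      _ = _ := one_mul _
  have hDn : ‖-(t • D)‖ ≤ ‖D‖ := by
    rw [norm_neg, norm_smul, Real.norm_eq_abs, abs_of_nonneg ht0]
    calc t * ‖D‖ ≤ 1 * ‖D‖ := mul_le_mul_of_nonneg_right ht1 (norm_nonneg _)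
      _ = _ := one_mul _
  refine ⟨(b₀ - p, β, -(t • D)), ?_, ?_⟩
  · rw [Prod.norm_def]
    apply max_lt hη1
    show ‖(β, -(t • D))‖ < η
    rw [Prod.norm_def]
    exact max_lt (hβn.trans_lt hη2) (hDn.trans_lt hη3)
  · have hsemi : Function.Semiconj (TT χ ((b₀ - p, 0, 0) : V d l m))
        (fun x => F (TT χ (0, β, -(t • D)) x)) (GG χ F (b₀ - p, β, -(t • D))) := by
      intro x
      show TT χ (b₀ - p, 0, 0) (F (TT χ (0, β, -(t • D)) x)) = TT χ (b₀ - p, 0, 0)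
        (F (TT χ (0, (β, -(t • D))) (TT χ (-(b₀ - p), 0, 0) (TT χ (b₀ - p, 0, 0) x))))
      rw [TT_base]
    have h2 := (hsemi.iterate_right n) (p, θ₀, y₀)
    have e1 : TT χ ((b₀ - p, 0, 0) : V d l m) (p, θ₀, y₀) = (b₀, θ₀, y₀) := by
      show (p + χ y₀ • (b₀ - p), θ₀ + χ y₀ • (0 : Fin l → ℝ), y₀ + χ y₀ • (0 : Fin m → ℝ)) = _
      rw [h1, one_smul, smul_zero, smul_zero, add_zero, add_zero, add_sub_cancel]
    rw [e1, orbit_eq hF, hY, ← hsdef, ← hS, hp] at h2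
    have e2 : s • β = κ - S := by
      rw [hβ, smul_smul, mul_inv_cancel₀ hs0.ne', one_smul]
    have e3 : θ₀ + s • β + S = θ₀ + κ := by
      rw [e2]
      abel
    rw [e3] at h2
    rw [← h2]
    show (p + k + χ y₀ • (b₀ - p), θ₀ + κ + χ y₀ • (0 : Fin l → ℝ),
      y₀ + χ y₀ • (0 : Fin m → ℝ)) = _
    rw [h1, one_smul, smul_zero, smul_zero, add_zero, add_zero]
    congr 1
    abel

end Pool.Agent.H922R3.CLR
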