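import Pool.Agent.H922R3.CL.G3
import Pool.Agent.H922R3.CLR.Defs

set_option autoImplicit false
set_option linter.unusedSectionVars false

open Set Filter Topology Function

namespace Pool.Agent.H922R3.CLR

open Pool.Agent.H922R3.CL

section small

variable {W : Type*} [NormedAddCommGroup W] [NormedSpace ℝ W] [CompleteSpace W]

/-- Small perturbations of the identity are diffeomorphisms. -/
theorem id_add_equiv {r : ℕ∞} (hr : 1 ≤ r) {χ : W → W} (hχ : ContDiff ℝ r χ)
    (hb : ∀ x, ‖fderiv ℝ χ x‖ ≤ 1 / 2) :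
    ∃ Θ : W ≃ W, (∀ x, Θ x = x + χ x) ∧ ContDiff ℝ r Θ ∧ ContDiff ℝ r Θ.symm := by
  have hr1 : (1 : WithTop ℕ∞) ≤ (r : WithTop ℕ∞) := by exact_mod_cast hr
  have hr0 : (r : WithTop ℕ∞) ≠ 0 := fun h => by
    rw [h] at hr1
    exact absurd hr1 (by norm_num)
  have hd : Differentiable ℝ χ := hχ.differentiable hr0
  have hsl : ∀ x y, ‖χ x - χ y‖ ≤ 1 / 2 * ‖x - y‖ := fun x y => by
    have := Convex.norm_image_sub_le_of_norm_fderiv_le (f := χ) (s := univ) (x := y) (y := x)
      (C := 1 / 2) (fun x _ => hd x) (fun x _ => hb x) convex_univ (mem_univ _) (mem_univ _)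
    exact this
  let θ : W → W := fun x => x + χ x
  have happ : ApproximatesLinearOn θ ((ContinuousLinearEquiv.refl ℝ W : W ≃L[ℝ] W) : W →L[ℝ] W)
      univ (1 / 2 : NNReal) := by
    intro x _ y _
    have e1 : θ x - θ y - ((ContinuousLinearEquiv.refl ℝ W : W ≃L[ℝ] W) : W →L[ℝ] W) (x - y) =
        χ x - χ y := by
      show (x + χ x) - (y + χ y) - (x - y) = _
      abel
    rw [e1]
    have e2 : ((1 / 2 : NNReal) : ℝ) = 1 / 2 := by norm_num
    rw [e2]
    exact hsl x y
  have hcc : Subsingleton W ∨ (1 / 2 : NNReal) <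
      ‖((ContinuousLinearEquiv.refl ℝ W : W ≃L[ℝ] W).symm : W →L[ℝ] W)‖₊⁻¹ := by
    rcases subsingleton_or_nontrivial W with h | h
    · exact Or.inl h
    · right
      have e1 : ‖((ContinuousLinearEquiv.refl ℝ W : W ≃L[ℝ] W).symm : W →L[ℝ] W)‖₊ = 1 := by
        have : ((ContinuousLinearEquiv.refl ℝ W : W ≃L[ℝ] W).symm : W →L[ℝ] W) =
          ContinuousLinearMap.id ℝ W := rfl
        rw [this]
        exact NNReal.eq (ContinuousLinearMap.norm_id)
      rw [e1, inv_one]
      rw [div_lt_one (by norm_num)]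
      norm_num
  let Θ : W ≃ₜ W := happ.toHomeomorph θ hcc
  have hΘ : ∀ x, Θ x = x + χ x := fun x => rfl
  have hΘf : (Θ : W → W) = fun x => x + χ x := funext hΘ
  have hθs : ContDiff ℝ r Θ := by
    rw [hΘf]
    exact contDiff_id.add hχ
  have hder : ∀ a, ∃ f' : W ≃L[ℝ] W, HasFDerivAt Θ (f' : W →L[ℝ] W) a := by
    intro a
    have h1 : ‖-(fderiv ℝ χ a)‖ < 1 := by
      rw [norm_neg]
      exact (hb a).trans_lt (by norm_num)
    refine ⟨ContinuousLinearEquiv.unitsEquiv ℝ W (Units.oneSub _ h1), ?_⟩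
    have e1 : ((ContinuousLinearEquiv.unitsEquiv ℝ W (Units.oneSub _ h1) : W ≃L[ℝ] W) :
        W →L[ℝ] W) = ContinuousLinearMap.id ℝ W + fderiv ℝ χ a := by
      ext x
      show ((1 : W →L[ℝ] W) - -(fderiv ℝ χ a)) x = _
      rw [sub_neg_eq_add]
      rfl
    rw [e1, hΘf]
    exact (hasFDerivAt_id a).add (hd a).hasFDerivAt
  choose f' hf' using hder
  have hΘs : ContDiff ℝ r Θ.symm := Θ.contDiff_symm hf' hθs
  exact ⟨Θ.toEquiv, hΘ, hθs, hΘs⟩

end small

/-- `C^k`-smallness, uniformly on compact sets, of a smooth family vanishing at the parameter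
`0`. -/
theorem ck_param {P W W' : Type*} [NormedAddCommGroup P] [NormedSpace ℝ P] [NormedAddCommGroup W]
    [NormedSpace ℝ W] [NormedAddCommGroup W'] [NormedSpace ℝ W'] {r : ℕ∞} {D : P × W → W'}
    (hD : ContDiff ℝ r D) (h0 : ∀ x, D (0, x) = 0) {K : Set W} (hK : IsCompact K) {k : ℕ}
    (hk : (k : ℕ∞) ≤ r) {ε : ℝ} (hε : 0 < ε) :
    ∃ δ > 0, ∀ p : P, ‖p‖ < δ → ∀ j ≤ k, ∀ x ∈ K,
      ‖iteratedFDeriv ℝ j (fun x => D (p, x)) x‖ < ε := by
  have key : ∀ j ≤ k, ∀ (p : P) (x : W), iteratedFDeriv ℝ j (fun x => D (p, x)) x =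
      ContinuousMultilinearMap.compContinuousLinearMapL
        (fun _ : Fin j => ContinuousLinearMap.inr ℝ P W) (iteratedFDeriv ℝ j D (p, x)) := by
    intro j hj p x
    have hjr : ((j : ℕ) : WithTop ℕ∞) ≤ (r : WithTop ℕ∞) := by
      have h1 : (j : ℕ∞) ≤ r := le_trans (by exact_mod_cast hj) hk
      exact_mod_cast h1
    have e1 : (fun x => D (p, x)) =
        (fun q => D ((p, 0) + q)) ∘ (ContinuousLinearMap.inr ℝ P W) := by
      funext x
      show D (p, x) = D ((p, 0) + (ContinuousLinearMap.inr ℝ P W) x)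
      rw [ContinuousLinearMap.inr_apply, Prod.mk_add_mk, add_zero, zero_add]
    have hf : ContDiff ℝ r (fun q : P × W => D ((p, 0) + q)) :=
      hD.comp (contDiff_const.add contDiff_id)
    rw [e1, ContinuousLinearMap.iteratedFDeriv_comp_right _ hf x hjr,
      iteratedFDeriv_comp_add_left, ContinuousLinearMap.inr_apply, Prod.mk_add_mk, add_zero,
      zero_add]
    rfl
  have hop : ∀ j ≤ k, IsOpen {q : P × W | ‖ContinuousMultilinearMap.compContinuousLinearMapL
        (fun _ : Fin j => ContinuousLinearMap.inr ℝ P W) (iteratedFDeriv ℝ j D q)‖ < ε} := by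
    intro j hj
    have hjr : ((j : ℕ) : WithTop ℕ∞) ≤ (r : WithTop ℕ∞) := by
      have h1 : (j : ℕ∞) ≤ r := le_trans (by exact_mod_cast hj) hk
      exact_mod_cast h1
    apply isOpen_lt _ continuous_const
    exact ((ContinuousMultilinearMap.compContinuousLinearMapL _).continuous.comp
      (hD.continuous_iteratedFDeriv hjr)).norm
  have hn : IsOpen {q : P × W | ∀ j ∈ Finset.range (k + 1),
      ‖ContinuousMultilinearMap.compContinuousLinearMapL
        (fun _ : Fin j => ContinuousLinearMap.inr ℝ P W) (iteratedFDeriv ℝ j D q)‖ < ε} := by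
    have : {q : P × W | ∀ j ∈ Finset.range (k + 1),
      ‖ContinuousMultilinearMap.compContinuousLinearMapL
        (fun _ : Fin j => ContinuousLinearMap.inr ℝ P W) (iteratedFDeriv ℝ j D q)‖ < ε} =
      ⋂ j ∈ Finset.range (k + 1), {q : P × W |
        ‖ContinuousMultilinearMap.compContinuousLinearMapL
        (fun _ : Fin j => ContinuousLinearMap.inr ℝ P W) (iteratedFDeriv ℝ j D q)‖ < ε} := by
      ext q
      simp only [mem_setOf_eq, mem_iInter]
    rw [this]
    apply isOpen_biInter_finset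
    intro j hj
    exact hop j (by have := Finset.mem_range.mp hj; omega)
  obtain ⟨u, v, hu, hv, h0u, hKv, huv⟩ := generalized_tube_lemma (isCompact_singleton (x := (0 : P)))
    hK hn (by
      rintro ⟨p, x⟩ ⟨hp, hx⟩ j hj
      have hp' : p = 0 := hp
      rw [hp', ← key j (by have := Finset.mem_range.mp hj; omega)]
      have e2 : (fun x => D ((0 : P), x)) = fun _ => 0 := funext h0
      rw [e2]
      have e3 : iteratedFDeriv ℝ j (fun _ : W => (0 : W')) x = 0 := by
        have := iteratedFDeriv_zero_fun (𝕜 := ℝ) (E := W) (F := W') (n := j)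
        exact congrFun this x
      rw [e3, norm_zero]
      exact hε)
  obtain ⟨δ, hδ, hball⟩ := Metric.isOpen_iff.mp hu 0 (h0u (mem_singleton _))
  refine ⟨δ, hδ, fun p hp j hj x hx => ?_⟩
  rw [key j hj]
  exact huv ⟨hball (by rwa [mem_ball_zero_iff]), hKv hx⟩ j (Finset.mem_range.mpr (by omega))

end Pool.Agent.H922R3.CLR
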